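-- WITHDRAWN hand-in (MP_d743a5_an, frozen statement S06327): the result is known (Bucur-Lamboley-Nahon-Prunier,
-- arXiv:2304.10916). Kept as a library file only; nothing here is a hand-in.
import Mathlib
import Pool.Agent.Lib.H38.Tor.Final

set_option autoImplicit false
open MeasureTheory

namespace Pool.Agent.Lib.Withdrawn.S06327

/-- In each dimension d ≥ 1 there is Q > 1 such that for every q ≥ Q and every nonempty open set of finite volume, λ₁·T^q/∣Ω∣^((q(d+2)−2)/d) is at most its value on the unit ball. -/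
theorem exists_threshold :
    ∀ d : ℕ, 1 ≤ d → ∃ Q : ℝ, 1 < Q ∧ ∀ q : ℝ, Q ≤ q →
      ∀ Ω : Set (EuclideanSpace ℝ (Fin d)), IsOpen Ω → Ω.Nonempty →
        MeasureTheory.volume Ω < ⊤ →
        sInf {r : ℝ | ∃ u : EuclideanSpace ℝ (Fin d) → ℝ, ContDiff ℝ 1 u ∧
              HasCompactSupport u ∧ tsupport u ⊆ Ω ∧ u ≠ 0 ∧
              r = (∫ x, ‖fderiv ℝ u x‖ ^ 2) / (∫ x, u x ^ 2)} *
            (sSup {r : ℝ | ∃ u : EuclideanSpace ℝ (Fin d) → ℝ, ContDiff ℝ 1 u ∧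
              HasCompactSupport u ∧ tsupport u ⊆ Ω ∧ u ≠ 0 ∧
              r = (∫ x, u x) ^ 2 / (∫ x, ‖fderiv ℝ u x‖ ^ 2)}) ^ q /
            ((MeasureTheory.volume Ω).toReal) ^ ((q * ((d : ℝ) + 2) - 2) / (d : ℝ))
          ≤
        sInf {r : ℝ | ∃ u : EuclideanSpace ℝ (Fin d) → ℝ, ContDiff ℝ 1 u ∧
              HasCompactSupport u ∧
              tsupport u ⊆ Metric.ball (0 : EuclideanSpace ℝ (Fin d)) 1 ∧ u ≠ 0 ∧
              r = (∫ x, ‖fderiv ℝ u x‖ ^ 2) / (∫ x, u x ^ 2)} *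
            (sSup {r : ℝ | ∃ u : EuclideanSpace ℝ (Fin d) → ℝ, ContDiff ℝ 1 u ∧
              HasCompactSupport u ∧
              tsupport u ⊆ Metric.ball (0 : EuclideanSpace ℝ (Fin d)) 1 ∧ u ≠ 0 ∧
              r = (∫ x, u x) ^ 2 / (∫ x, ‖fderiv ℝ u x‖ ^ 2)}) ^ q /
            ((MeasureTheory.volume (Metric.ball (0 : EuclideanSpace ℝ (Fin d)) 1)).toReal) ^
              ((q * ((d : ℝ) + 2) - 2) / (d : ℝ)) := by
  intro d hd
  obtain ⟨Q, hQ1, hQ⟩ := Pool.Agent.Lib.H38.Tor.unit_case hd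
  refine ⟨Q, hQ1, fun q hq Ω hΩ hne hfin => ?_⟩
  exact Pool.Agent.Lib.H38.Tor.reduce hd (by linarith) (hQ q hq) Ω hΩ hne hfin

end Pool.Agent.Lib.Withdrawn.S06327
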